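import Pool.Agent.Y871.LD.Pt
import Pool.Agent.H370R2.DirGood
import Pool.Agent.H370R2.PC2

set_option autoImplicit false

/-!
LD project (helper745, MP_6bc78b_nt), job COST: the total cost of the zeros at heights where all zeros are near the
critical line.
-/

namespace Pool.Agent.Y871.LD

open Filter Topology MeasureTheory Complex H370 Pool.Agent.Y745.SW Pool.Agent.Y745.LD

/-- the numerical conditions -/
lemma num (D e C τ C1 C2 : ℝ) (j : ℕ) (hD : 0 < D) (he : 0 < e) (he8 : e ≤ 1 / 8) (hC : 1 ≤ C) (hτ : 0 < τ)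
    (hτ1 : τ ≤ 1) (hτD : τ * D ≤ e / 16) (hC1 : 0 < C1) (hC2 : 0 < C2) (hj : 4 * D + 20 ≤ e / 2 * j) :
    ∀ᶠ L : ℝ in atTop, 1 ≤ L ∧ 4 ≤ L ^ (e / 2) ∧ 4 * L ^ (e / 2) ≤ L ^ e ∧ 2 * L ^ e / (τ * L) ≤ 1 ∧
      (L ^ e / (τ * L)) ^ 2 + (D * Real.log L / L) ^ 2 ≤ 1 ∧
      2 * (C * L ^ (e / 16) / (1 + L ^ (e / 2)) ^ j + (1 + C * L ^ (e / 16)) *
        ((L ^ e / (τ * L)) ^ 2 + (D * Real.log L / L) ^ 2)) ≤ (1 / (4 * C1 * L)) / 2 ∧
      6 + 4 * (C * L ^ (e / 16)) ≤ L ^ (e / 4) ∧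
      4 * (C * L ^ (e / 16) / (L ^ (e / 2) - 1) ^ j) * L ^ D ≤ 1 / (4 * C1 * L) ∧
      4 * C * Real.exp (τ * L / 2) * Real.exp (L / 2) * Real.exp (-L ^ 2 / 2) ≤ 1 / (2 * C2 * (Real.exp L * L)) ∧
      Real.exp (τ * L * (D * Real.log L / L)) ≤ L ^ (e / 16) ∧
      Real.exp (D * Real.log L / L * L) ≤ L ^ D := by
  obtain ⟨K, hK⟩ : ∃ K : ℝ, K = 2 * C + 4 * C * ((1 / τ) ^ 2 + D ^ 2) := ⟨_, rfl⟩
  have hM : Tendsto (fun L : ℝ => L ^ (1 / 8 : ℝ)) atTop atTop := tendsto_rpow_atTop (by norm_num)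
  have hE : Tendsto (fun L : ℝ => L ^ (e / 16)) atTop atTop := tendsto_rpow_atTop (by positivity)
  have hlog : ∀ᶠ L : ℝ in atTop, Real.log L ≤ L ^ (1 / 8 : ℝ) := by
    have h := (isLittleO_log_rpow_atTop (show (0:ℝ) < 1 / 8 by norm_num)).bound (show (0:ℝ) < 1 by norm_num)
    filter_upwards [h, eventually_ge_atTop (1:ℝ)] with L h1 h2
    rw [one_mul, Real.norm_eq_abs, Real.norm_eq_abs, abs_of_nonneg (Real.log_nonneg h2),
      abs_of_nonneg (by positivity)] at h1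
    exact h1
  filter_upwards [eventually_ge_atTop (8:ℝ), eventually_ge_atTop (8 * C * C2), hlog,
    hE.eventually_ge_atTop (6 + 4 * C), hM.eventually_ge_atTop (8 * C1 * K),
    hM.eventually_ge_atTop (16 * C * C1 * 2 ^ j), hM.eventually_ge_atTop (2 / τ),
    hM.eventually_ge_atTop ((1 / τ) ^ 2 + D ^ 2)] with L hL8 hLC hlg hEb hM1 hM2 hM3 hM4
  have hL0 : 0 < L := by linarith
  have hL1 : 1 ≤ L := by linarith
  obtain ⟨M, hMd⟩ : ∃ M : ℝ, M = L ^ (1 / 8 : ℝ) := ⟨_, rfl⟩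
  obtain ⟨E, hEd⟩ : ∃ E : ℝ, E = L ^ (e / 16) := ⟨_, rfl⟩
  obtain ⟨N0, hN0d⟩ : ∃ N0 : ℝ, N0 = L ^ (e / 2) := ⟨_, rfl⟩
  obtain ⟨N, hNd⟩ : ∃ N : ℝ, N = L ^ e := ⟨_, rfl⟩
  obtain ⟨R, hRd⟩ : ∃ R : ℝ, R = L ^ D := ⟨_, rfl⟩
  have hML : M ^ 8 = L := by
    rw [hMd, ← Real.rpow_natCast, ← Real.rpow_mul hL0.le]; norm_num
  have hM0 : 1 ≤ M := by rw [hMd]; exact Real.one_le_rpow hL1 (by norm_num)
  have hR0 : 0 < R := by rw [hRd]; positivity
  have hNM : N ≤ M := by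
    rw [hNd, hMd]; exact Real.rpow_le_rpow_of_exponent_le hL1 he8
  have hEM : E ≤ M := by
    rw [hEd, hMd]; exact Real.rpow_le_rpow_of_exponent_le hL1 (by linarith)
  have hN00 : 0 < N0 := by rw [hN0d]; positivity
  have hN8 : N0 = E ^ 8 := by
    rw [hEd, hN0d, ← Real.rpow_natCast, ← Real.rpow_mul hL0.le]; congr 1; push_cast; ring
  have hNN : N = N0 ^ 2 := by
    rw [hNd, hN0d, ← Real.rpow_natCast, ← Real.rpow_mul hL0.le]; congr 1; push_cast; ring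
  have hE4 : L ^ (e / 4) = E ^ 4 := by
    rw [hEd, ← Real.rpow_natCast, ← Real.rpow_mul hL0.le]; congr 1; push_cast; ring
  have hNj : R * M ^ 160 ≤ N0 ^ j := by
    have h1 : M ^ 160 = L ^ (20:ℝ) := by
      rw [show (160:ℕ) = 8 * 20 by norm_num, pow_mul, hML]
      norm_cast
    rw [h1, hRd, ← Real.rpow_add hL0, hN0d, ← Real.rpow_natCast, ← Real.rpow_mul hL0.le]
    exact Real.rpow_le_rpow_of_exponent_le hL1 (by linarith)
  rw [← hEd] at hEb
  rw [← hMd] at hlg hM1 hM2 hM3 hM4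
  rw [← hEd, ← hN0d, ← hNd, ← hRd, hE4]
  have hE6 : 6 + 4 * C ≤ E := hEb
  have hE1 : 1 ≤ E := by linarith
  have hN04 : E ≤ N0 := by rw [hN8]; exact le_self_pow₀ hE1 (by norm_num)
  have hR1 : 1 ≤ R := by rw [hRd]; exact Real.one_le_rpow hL1 hD.le
  have hC0 : 0 < C := by linarith
  have ha : 0 < τ * L := by positivity
  have hNa : N / (τ * L) ≤ 1 / τ / M ^ 7 := by
    rw [div_div, div_le_div_iff₀ ha (by positivity), ← hML]
    have : N * (τ * M ^ 7) ≤ M * (τ * M ^ 7) := mul_le_mul_of_nonneg_right hNM (by positivity)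
    calc N * (τ * M ^ 7) ≤ M * (τ * M ^ 7) := this
      _ = 1 * (τ * M ^ 8) := by ring
  have hYa : D * Real.log L / L ≤ D / M ^ 7 := by
    rw [div_le_div_iff₀ hL0 (by positivity)]
    have : D * Real.log L * M ^ 7 ≤ D * M * M ^ 7 := by gcongr
    calc D * Real.log L * M ^ 7 ≤ D * M * M ^ 7 := this
      _ = D * M ^ 8 := by ring
      _ = D * L := by rw [hML]
  have hN0p : 0 < N := by rw [hNN]; positivity
  have hY0 : 0 ≤ D * Real.log L / L := by
    have := Real.log_nonneg hL1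
    positivity
  have hρ : (N / (τ * L)) ^ 2 + (D * Real.log L / L) ^ 2 ≤ ((1 / τ) ^ 2 + D ^ 2) / M ^ 14 := by
    have h1 : (N / (τ * L)) ^ 2 ≤ (1 / τ / M ^ 7) ^ 2 := pow_le_pow_left₀ (by positivity) hNa 2
    have h2 : (D * Real.log L / L) ^ 2 ≤ (D / M ^ 7) ^ 2 := pow_le_pow_left₀ hY0 hYa 2
    calc _ ≤ (1 / τ / M ^ 7) ^ 2 + (D / M ^ 7) ^ 2 := add_le_add h1 h2
      _ = _ := by rw [div_pow, div_pow, ← pow_mul]; ring
  have hMp : M ≤ M ^ 14 := le_self_pow₀ hM0 (by norm_num)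
  refine ⟨hL1, by linarith, ?_, ?_, ?_, ?_, ?_, ?_, ?_, ?_, ?_⟩
  · rw [hNN]; nlinarith
  · have h1 : 2 * N / (τ * L) = 2 * (N / (τ * L)) := by ring
    rw [h1]
    have h2 : 2 * (1 / τ / M ^ 7) ≤ 1 := by
      rw [show 2 * (1 / τ / M ^ 7) = (2 / τ) / M ^ 7 by ring, div_le_one (by positivity)]
      exact hM3.trans (le_self_pow₀ hM0 (by norm_num))
    linarith
  · refine hρ.trans ?_
    rw [div_le_one (by positivity)]
    linarith
  · have hA : C * E / (1 + N0) ^ j ≤ C / M ^ 13 := by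
      rw [div_le_div_iff₀ (by positivity) (by positivity)]
      have h1 : N0 ^ j ≤ (1 + N0) ^ j := pow_le_pow_left₀ hN00.le (by linarith) j
      have h2 : M ^ 160 ≤ R * M ^ 160 := le_mul_of_one_le_left (by positivity) hR1
      have h3 : M * M ^ 13 ≤ M ^ 160 := by
        rw [← pow_succ']; exact pow_le_pow_right₀ hM0 (by norm_num)
      calc C * E * M ^ 13 ≤ C * M * M ^ 13 := by gcongr
        _ = C * (M * M ^ 13) := by ring
        _ ≤ C * (1 + N0) ^ j := by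
          apply mul_le_mul_of_nonneg_left _ hC0.le
          linarith
    have hB : (1 + C * E) * ((N / (τ * L)) ^ 2 + (D * Real.log L / L) ^ 2) ≤
        2 * C * ((1 / τ) ^ 2 + D ^ 2) / M ^ 13 := by
      have h1 : 1 + C * E ≤ 2 * C * M := by nlinarith
      calc (1 + C * E) * ((N / (τ * L)) ^ 2 + (D * Real.log L / L) ^ 2) ≤
          (2 * C * M) * (((1 / τ) ^ 2 + D ^ 2) / M ^ 14) :=
            mul_le_mul h1 hρ (by positivity) (by positivity)
        _ = _ := by field_simp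
    have hF : 2 * (C / M ^ 13 + 2 * C * ((1 / τ) ^ 2 + D ^ 2) / M ^ 13) = K / M ^ 13 := by
      rw [hK]; ring
    have hG : K / M ^ 13 ≤ 1 / (4 * C1 * L) / 2 := by
      rw [div_div, div_le_div_iff₀ (by positivity) (by positivity), ← hML]
      have h1 : M * M ^ 8 ≤ M ^ 13 := by
        rw [← pow_succ']; exact pow_le_pow_right₀ hM0 (by norm_num)
      calc K * (4 * C1 * M ^ 8 * 2) = (8 * C1 * K) * M ^ 8 := by ring
        _ ≤ M * M ^ 8 := by gcongr
        _ ≤ 1 * M ^ 13 := by linarith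
    linarith
  · have h1 : E ^ 1 ≤ E ^ 2 := pow_le_pow_right₀ hE1 (by norm_num)
    have h2 : E ^ 2 ≤ E ^ 4 := pow_le_pow_right₀ hE1 (by norm_num)
    nlinarith
  · have h1 : (N0 / 2) ^ j ≤ (N0 - 1) ^ j := pow_le_pow_left₀ (by positivity) (by linarith) j
    have h2 : R * M ^ 160 / 2 ^ j ≤ (N0 - 1) ^ j := by
      refine le_trans ?_ h1
      rw [div_pow]
      exact div_le_div_of_nonneg_right hNj (by positivity)
    have h3 : C * E / (N0 - 1) ^ j ≤ C * M / (R * M ^ 160 / 2 ^ j) := by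
      apply div_le_div₀ (by positivity) (by gcongr) (by positivity) h2
    calc 4 * (C * E / (N0 - 1) ^ j) * R ≤ 4 * (C * M / (R * M ^ 160 / 2 ^ j)) * R := by gcongr
      _ = 4 * C * 2 ^ j / M ^ 159 := by field_simp
      _ ≤ 1 / (4 * C1 * L) := by
        rw [div_le_div_iff₀ (by positivity) (by positivity), ← hML]
        have h4 : M * M ^ 8 ≤ M ^ 159 := by
          rw [← pow_succ']; exact pow_le_pow_right₀ hM0 (by norm_num)
        calc 4 * C * 2 ^ j * (4 * C1 * M ^ 8) = (16 * C * C1 * 2 ^ j) * M ^ 8 := by ring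
          _ ≤ M * M ^ 8 := by gcongr
          _ ≤ 1 * M ^ 159 := by linarith
  · rw [le_div_iff₀ (by positivity)]
    have h1 : Real.exp (τ * L / 2) * Real.exp (L / 2) * Real.exp (-L ^ 2 / 2) * (Real.exp L * Real.exp L) ≤
        Real.exp (-L) := by
      rw [← Real.exp_add, ← Real.exp_add, ← Real.exp_add, ← Real.exp_add]
      apply Real.exp_le_exp.mpr
      nlinarith
    have h2 : L ≤ Real.exp L := by linarith [Real.add_one_le_exp L]
    have h3 : Real.exp (-L) ≤ 1 / L := by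
      rw [Real.exp_neg, ← one_div]
      exact one_div_le_one_div_of_le hL0 h2
    calc 4 * C * Real.exp (τ * L / 2) * Real.exp (L / 2) * Real.exp (-L ^ 2 / 2) *
        (2 * C2 * (Real.exp L * L)) =
        8 * C * C2 * (Real.exp (τ * L / 2) * Real.exp (L / 2) * Real.exp (-L ^ 2 / 2) * (Real.exp L * L)) := by
          ring
      _ ≤ 8 * C * C2 * (Real.exp (τ * L / 2) * Real.exp (L / 2) * Real.exp (-L ^ 2 / 2) *
          (Real.exp L * Real.exp L)) := by gcongr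
      _ ≤ 8 * C * C2 * (1 / L) := by
        apply mul_le_mul_of_nonneg_left (h1.trans h3) (by positivity)
      _ ≤ 1 := by
        rw [mul_one_div, div_le_one hL0]; exact hLC
  · rw [hEd, Real.rpow_def_of_pos hL0]
    apply Real.exp_le_exp.mpr
    have h1 : τ * L * (D * Real.log L / L) = (τ * D) * Real.log L := by field_simp
    rw [h1, mul_comm (Real.log L)]
    exact mul_le_mul_of_nonneg_right hτD (Real.log_nonneg hL1)
  · rw [hRd, Real.rpow_def_of_pos hL0]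
    apply Real.exp_le_exp.mpr
    have h1 : D * Real.log L / L * L = Real.log L * D := by field_simp
    rw [h1]

/-- COST: the total cost of the zeros -/
theorem t_COST : P_COST := by
  classical
  intro D e hD he he8
  obtain ⟨j, hj⟩ : ∃ j : ℕ, j = ⌈(8 * D + 40) / e⌉₊ := ⟨_, rfl⟩
  have hj' : 4 * D + 20 ≤ e / 2 * j := by
    have h := Nat.le_ceil ((8 * D + 40) / e)
    rw [← hj, div_le_iff₀ he] at h
    linarith
  refine ⟨j, min 1 (e / (16 * D)), lt_min one_pos (by positivity), min_le_left _ _, ?_⟩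
  intro C τ hC hτ hτ0
  have hτ1 : τ ≤ 1 := hτ0.trans (min_le_left _ _)
  have hτD : τ * D ≤ e / 16 := by
    have h := hτ0.trans (min_le_right _ _)
    rw [le_div_iff₀ (by positivity)] at h
    linarith
  obtain ⟨C1, hC1, hZ⟩ := Zg_le good_zeta
  obtain ⟨C2, hC2, hNc⟩ := NN_crude good_zeta
  have hev := Real.tendsto_log_atTop.eventually
    (num D e C τ C1 C2 j hD he he8 hC hτ hτ1 hτD hC1 hC2 hj')
  filter_upwards [hev, eventually_ge_atTop (4:ℝ)] with T hnum hT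
  intro B W d η1 hd hdL hη hη1 U1 U2 hU1 hU2 t ht
  have hT0 : 0 < T := by linarith
  rw [Real.exp_log hT0] at hnum
  obtain ⟨L, hL⟩ : ∃ L : ℝ, L = Real.log T := ⟨_, rfl⟩
  obtain ⟨N, hN⟩ : ∃ N : ℝ, N = L ^ e := ⟨_, rfl⟩
  obtain ⟨N0, hN0⟩ : ∃ N0 : ℝ, N0 = L ^ (e / 2) := ⟨_, rfl⟩
  obtain ⟨K4, hK4⟩ : ∃ K4 : ℝ, K4 = L ^ (e / 4) := ⟨_, rfl⟩
  have hZ' := hZ T hT U1 U2 hU1 hU2 t
  have hNc' := hNc T hT U1 U2 hU1 hU2
  have htG := ht.1
  unfold G1 at htG
  rw [Set.mem_setOf_eq] at htG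
  unfold LL at htG
  rw [← hL] at hnum hdL htG hZ' hNc' W ⊢
  rw [← hN, ← hN0, ← hK4] at hnum
  rw [← hN] at W
  rw [← hN, ← hN0, ← hK4]
  obtain ⟨q1, q2, q3, q4, q5, q6, q7, q8, q9, q10, q11⟩ := hnum
  have hL0 : 0 < L := by linarith
  obtain ⟨a, ha⟩ : ∃ a : ℝ, a = τ * L := ⟨_, rfl⟩
  have ha0 : 0 < a := by rw [ha]; positivity
  have had : a * d ≤ 1 := by
    calc a * d ≤ a * (1 / L) := mul_le_mul_of_nonneg_left hdL ha0.le
      _ = τ := by rw [ha]; field_simp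
      _ ≤ 1 := hτ1
  rw [← ha] at q4 q5 q6 q9 q10 ⊢
  have hU1' : 1 ≤ U1 := by linarith
  obtain ⟨δ1, hδ1⟩ : ∃ δ1 : ℝ, δ1 = 1 / (4 * C1 * L) := ⟨_, rfl⟩
  obtain ⟨δ2, hδ2⟩ : ∃ δ2 : ℝ, δ2 = 1 / (2 * C2 * (T * L)) := ⟨_, rfl⟩
  have hδ1p : 0 ≤ δ1 := by rw [hδ1]; positivity
  have hδ2p : 0 ≤ δ2 := by rw [hδ2]; positivity
  rw [← hδ1] at q6 q8
  rw [← hδ2] at q9
  have hpt : ∀ s ∈ Zf riemannZeta U1 U2, (mult riemannZeta s : ℝ) *
      cost B a ((N + N0) / a) d η1 L t (zz s) ≤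
      (mult riemannZeta s : ℝ) * (if t - 2 * N / a ≤ s.im ∧ s.im ≤ t + 2 * N / a then η1 else 0) +
      ((mult riemannZeta s : ℝ) *
        (if t - (N + 2 * N0) / a ≤ s.im ∧ s.im ≤ t - (N - 2 * N0) / a then K4 else 0) +
      (mult riemannZeta s : ℝ) *
        (if t + (N - 2 * N0) / a ≤ s.im ∧ s.im ≤ t + (N + 2 * N0) / a then K4 else 0)) +
      2 * δ1 * ((mult riemannZeta s : ℝ) * Real.exp (-(s.im - t) ^ 2 / 2)) +
      δ2 * (mult riemannZeta s : ℝ) := by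
    intro s hs
    have hs' := (mem_Zf good_zeta hU1').mp hs
    obtain ⟨s1, s2, s3, s4, s5⟩ := hs'
    have hz : |(zz s).im| ≤ 1 / 2 := by
      rw [zz_im, abs_neg, abs_le]
      constructor <;> linarith
    have hnear : |(zz s).re - t| ≤ L → |(zz s).im| ≤ D * Real.log L / L := by
      intro h
      rw [zz_re] at h
      rw [zz_im, abs_neg]
      exact htG s s5 s1 s2 (by rw [one_mul]; exact h)
    have p1 := part1 (t := t) (z := zz s) (L := L) (Y := D * Real.log L / L) hC W ha0 hz hnear q10 hd had hη q2 q3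
      q4 q1 hδ1p q5 q6 q7
    have p2 := part2 (t := t) (z := zz s) (L := L) (Y := D * Real.log L / L) hC W ha0 hz hnear q10 q11 had q2
      q1 hδ1p hδ2p q8 q9
    have hm : (0:ℝ) ≤ (mult riemannZeta s : ℝ) := Nat.cast_nonneg _
    have h3 : cost B a ((N + N0) / a) d η1 L t (zz s) ≤
        (if t - 2 * N / a ≤ s.im ∧ s.im ≤ t + 2 * N / a then η1 else 0) +
        ((if t - (N + 2 * N0) / a ≤ s.im ∧ s.im ≤ t - (N - 2 * N0) / a then K4 else 0) +
        (if t + (N - 2 * N0) / a ≤ s.im ∧ s.im ≤ t + (N + 2 * N0) / a then K4 else 0)) +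
        2 * δ1 * Real.exp (-(s.im - t) ^ 2 / 2) + δ2 := by
      unfold cost
      have e1 : (|(zz s).re - t| ≤ 2 * N / a) ↔ (t - 2 * N / a ≤ s.im ∧ s.im ≤ t + 2 * N / a) := by
        rw [zz_re, abs_le]
        constructor <;> rintro ⟨h1, h2⟩ <;> constructor <;> linarith
      have e2 : ((N - 2 * N0) / a ≤ -((zz s).re - t) ∧ -((zz s).re - t) ≤ (N + 2 * N0) / a) ↔
          (t - (N + 2 * N0) / a ≤ s.im ∧ s.im ≤ t - (N - 2 * N0) / a) := by
        rw [zz_re]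
        constructor <;> rintro ⟨h1, h2⟩ <;> constructor <;> linarith
      have e3 : ((N - 2 * N0) / a ≤ (zz s).re - t ∧ (zz s).re - t ≤ (N + 2 * N0) / a) ↔
          (t + (N - 2 * N0) / a ≤ s.im ∧ s.im ≤ t + (N + 2 * N0) / a) := by
        rw [zz_re]
        constructor <;> rintro ⟨h1, h2⟩ <;> constructor <;> linarith
      rw [if_congr e1 rfl rfl, if_congr e2 rfl rfl, if_congr e3 rfl rfl] at p1
      have e4 : (zz s).re = s.im := zz_re s
      rw [e4] at p1 p2 ⊢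
      linarith
    calc _ ≤ (mult riemannZeta s : ℝ) * _ := mul_le_mul_of_nonneg_left h3 hm
      _ = _ := by ring
  refine (Finset.sum_le_sum hpt).trans ?_
  rw [Finset.sum_add_distrib, Finset.sum_add_distrib, Finset.sum_add_distrib, Finset.sum_add_distrib,
    ← Finset.mul_sum, ← Finset.mul_sum]
  have hnz : ∀ (α β K : ℝ), ∑ s ∈ Zf riemannZeta U1 U2, (mult riemannZeta s : ℝ) *
      (if α ≤ s.im ∧ s.im ≤ β then K else 0) = K * nz U1 U2 α β := by
    intro α β K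
    unfold nz
    rw [Finset.mul_sum, Finset.sum_filter]
    refine Finset.sum_congr rfl fun s _ => ?_
    split_ifs
    · ring
    · ring
  rw [hnz, hnz, hnz]
  have hg1 : 2 * δ1 * ∑ s ∈ Zf riemannZeta U1 U2, (mult riemannZeta s : ℝ) *
      Real.exp (-(s.im - t) ^ 2 / 2) ≤ 1 / 2 := by
    have h1 : 2 * δ1 * (C1 * L) = 1 / 2 := by rw [hδ1]; field_simp; norm_num
    rw [← h1]
    exact mul_le_mul_of_nonneg_left hZ' (by positivity)
  have hg2 : δ2 * ∑ s ∈ Zf riemannZeta U1 U2, (mult riemannZeta s : ℝ) ≤ 1 / 2 := by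
    have h1 : δ2 * (C2 * (T * L)) = 1 / 2 := by rw [hδ2]; field_simp
    rw [← h1]
    apply mul_le_mul_of_nonneg_left _ hδ2p
    have h2 : ((NN riemannZeta U1 U2 : ℕ) : ℝ) = ∑ s ∈ Zf riemannZeta U1 U2, (mult riemannZeta s : ℝ) := by
      rw [NN_eq good_zeta hU1', Nat.cast_sum]
    rw [← h2]
    exact hNc'
  linarith

end Pool.Agent.Y871.LD
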