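import Pool.Agent.Y745.LD.DefsB
import Pool.Agent.Y627.SW.ER1

set_option autoImplicit false

/-!
LD project (helper745, MP_6bc78b_nt), job COST: pointwise bound for the cost of a zero.
-/

namespace Pool.Agent.Y871.LD

open Filter Topology MeasureTheory Complex Pool.Agent.Y745.SW Pool.Agent.Y745.LD Pool.Agent.Y627.SW

lemma gauss_le (t : ℝ) (z : ℂ) (hz : |z.im| ≤ 1 / 2) :
    ‖cexp (-(z - (t : ℂ)) ^ 2 / 2)‖ ≤ 2 * Real.exp (-(z.re - t) ^ 2 / 2) := by
  rw [Complex.norm_exp]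
  have h : (-(z - (t : ℂ)) ^ 2 / 2).re = -((z.re - t) ^ 2 - z.im ^ 2) / 2 := by
    have : -(z - (t : ℂ)) ^ 2 / 2 = ((1 / 2 : ℝ) : ℂ) * (-((z - (t : ℂ)) * (z - (t : ℂ)))) := by
      push_cast; ring
    rw [this, Complex.re_ofReal_mul]
    simp [Complex.mul_re]
    ring
  rw [h]
  have h1 : z.im ^ 2 ≤ (1 / 2) ^ 2 := by
    rw [← sq_abs z.im]
    exact pow_le_pow_left₀ (abs_nonneg _) hz 2
  calc Real.exp (-((z.re - t) ^ 2 - z.im ^ 2) / 2) ≤ Real.exp (1 / 8 + -(z.re - t) ^ 2 / 2) := by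
        apply Real.exp_le_exp.mpr
        nlinarith
    _ = Real.exp (1 / 8) * Real.exp (-(z.re - t) ^ 2 / 2) := Real.exp_add _ _
    _ ≤ _ := by
        have := exp_eighth
        have h2 := Real.exp_pos (-(z.re - t) ^ 2 / 2)
        exact mul_le_mul_of_nonneg_right this h2.le

lemma abs_a_mul {a : ℝ} (ha : 0 < a) (w : ℝ) : |a * w| = a * |w| := by
  rw [abs_mul, abs_of_pos ha]

/-- inside the window -/
lemma inner_small {j : ℕ} {C N N0 a E ρ t : ℝ} {B : ℝ → ℝ} {z : ℂ} (hC : 1 ≤ C) (W : Wf j C N B) (ha : 0 < a)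
    (hE : Real.exp (a * |z.im|) ≤ E) (hN0 : 0 ≤ N0) (hx : a * |z.re - t| ≤ N - N0)
    (hr : |z.re - t| ^ 2 + |z.im| ^ 2 ≤ ρ) (hρ : ρ ≤ 1) :
    ‖1 - vt B a t z‖ ≤ C * E / (1 + N0) ^ j + (1 + C * E) * ρ := by
  have hE0 : 0 < E := (Real.exp_pos _).trans_le hE
  have h1 : ‖VF B (a * (z - t)) - 1‖ ≤ C * E / (1 + N0) ^ j := by
    have h2 := W.inner ((a : ℂ) * (z - (t : ℂ))) (by rw [re_eq, abs_a_mul ha]; linarith)
    rw [re_eq, im_eq, abs_a_mul ha, abs_a_mul ha] at h2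
    refine h2.trans ?_
    apply div_le_div₀ (by positivity)
    · exact mul_le_mul_of_nonneg_left hE (by linarith)
    · positivity
    · exact pow_le_pow_left₀ (by linarith) (by linarith) j
  have hn : ‖z - (t : ℂ)‖ ^ 2 = |z.re - t| ^ 2 + |z.im| ^ 2 := by
    rw [← Complex.normSq_eq_norm_sq, Complex.normSq_apply]
    have h4 : (z - (t : ℂ)).re = z.re - t := by simp
    have h5 : (z - (t : ℂ)).im = z.im := by simp
    rw [h4, h5, sq_abs, sq_abs]; ring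
  have hsq : ‖-(z - (t : ℂ)) ^ 2 / 2‖ ≤ ρ / 2 := by
    rw [norm_div, norm_neg, norm_pow]
    have : ‖(2 : ℂ)‖ = 2 := by simp
    rw [this, hn]
    linarith
  have h9 : ‖cexp (-(z - (t : ℂ)) ^ 2 / 2) - 1‖ ≤ ρ := by
    have := Complex.norm_exp_sub_one_le (x := -(z - (t : ℂ)) ^ 2 / 2) (by linarith)
    linarith
  have h10 : ‖VF B (a * (z - t))‖ ≤ 1 + C * E := by
    have := VF_glob hC W ((a : ℂ) * (z - (t : ℂ)))
    rw [im_eq, abs_a_mul ha] at this
    have h11 : C * Real.exp (a * |z.im|) ≤ C * E := mul_le_mul_of_nonneg_left hE (by linarith)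
    linarith
  have e : 1 - vt B a t z = -(VF B (a * (z - t)) - 1) -
      VF B (a * (z - t)) * (cexp (-(z - (t : ℂ)) ^ 2 / 2) - 1) := by
    unfold vt; ring
  rw [e]
  refine (norm_sub_le _ _).trans ?_
  rw [norm_neg, norm_mul]
  have h12 : ‖VF B (a * (z - t))‖ * ‖cexp (-(z - (t : ℂ)) ^ 2 / 2) - 1‖ ≤ (1 + C * E) * ρ :=
    mul_le_mul h10 h9 (norm_nonneg _) (by positivity)
  linarith

/-- outside the window -/
lemma outer_small {j : ℕ} {C N M a E t : ℝ} {B : ℝ → ℝ} {z : ℂ} (hC : 1 ≤ C) (W : Wf j C N B) (ha : 0 < a)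
    (hz : |z.im| ≤ 1 / 2) (hE : Real.exp (a * |z.im|) ≤ E) (hM : 1 ≤ M) (hx : N + M - 1 ≤ a * |z.re - t|) :
    ‖vt B a t z‖ ≤ 2 * (C * E / M ^ j) * Real.exp (-(z.re - t) ^ 2 / 2) := by
  have hE0 : 0 < E := (Real.exp_pos _).trans_le hE
  have h1 : ‖VF B (a * (z - t))‖ ≤ C * E / M ^ j := by
    have h2 := W.outer ((a : ℂ) * (z - (t : ℂ))) (by rw [re_eq, abs_a_mul ha]; linarith)
    rw [re_eq, im_eq, abs_a_mul ha, abs_a_mul ha] at h2
    refine h2.trans ?_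
    apply div_le_div₀ (by positivity)
    · exact mul_le_mul_of_nonneg_left hE (by linarith)
    · positivity
    · exact pow_le_pow_left₀ (by linarith) (by linarith) j
  have h2 := gauss_le t z hz
  unfold vt
  rw [norm_mul]
  calc ‖VF B (a * (z - t))‖ * ‖cexp (-(z - (t : ℂ)) ^ 2 / 2)‖ ≤
      (C * E / M ^ j) * (2 * Real.exp (-(z.re - t) ^ 2 / 2)) :=
        mul_le_mul h1 h2 (norm_nonneg _) (by positivity)
    _ = _ := by ring

/-- the bound in general -/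
lemma vt_any {j : ℕ} {C N a E t : ℝ} {B : ℝ → ℝ} {z : ℂ} (hC : 1 ≤ C) (W : Wf j C N B) (ha : 0 < a)
    (hz : |z.im| ≤ 1 / 2) (hE : Real.exp (a * |z.im|) ≤ E) :
    2 * ‖1 - vt B a t z‖ ≤ 6 + 4 * (C * E) := by
  have h := VF_glob hC W ((a : ℂ) * (z - (t : ℂ)))
  rw [im_eq, abs_a_mul ha] at h
  have h11 : C * Real.exp (a * |z.im|) ≤ C * E := mul_le_mul_of_nonneg_left hE (by linarith)
  have hv := vt_norm_le B a t z hz
  have h1 : ‖1 - vt B a t z‖ ≤ 1 + ‖vt B a t z‖ := by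
    refine (norm_sub_le _ _).trans ?_
    rw [norm_one]
  linarith

/-- first part of the cost -/
lemma part1 {j : ℕ} {C N N0 a L E Y δ1 K4 d η1 t : ℝ} {B : ℝ → ℝ} {z : ℂ} (hC : 1 ≤ C) (W : Wf j C N B)
    (ha : 0 < a) (hz : |z.im| ≤ 1 / 2) (hnear : |z.re - t| ≤ L → |z.im| ≤ Y) (hE : Real.exp (a * Y) ≤ E)
    (hd : 0 ≤ d) (had : a * d ≤ 1) (hη : 0 ≤ η1) (hN0 : 4 ≤ N0) (hN : 4 * N0 ≤ N) (hNa : 2 * N / a ≤ 1)
    (hL : 1 ≤ L) (hδ1 : 0 ≤ δ1) (hρ : (N / a) ^ 2 + Y ^ 2 ≤ 1)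
    (hin : 2 * (C * E / (1 + N0) ^ j + (1 + C * E) * ((N / a) ^ 2 + Y ^ 2)) ≤ δ1 / 2)
    (hK : 6 + 4 * (C * E) ≤ K4) :
    (if |z.re - t| ≤ (N + N0) / a + 2 * d then 2 * ‖1 - vt B a t z‖ + η1 else 0) ≤
      (if |z.re - t| ≤ 2 * N / a then η1 else 0) +
      ((if (N - 2 * N0) / a ≤ -(z.re - t) ∧ -(z.re - t) ≤ (N + 2 * N0) / a then K4 else 0) +
      (if (N - 2 * N0) / a ≤ z.re - t ∧ z.re - t ≤ (N + 2 * N0) / a then K4 else 0)) +
      δ1 * Real.exp (-(z.re - t) ^ 2 / 2) := by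
  have hE0 : 0 < E := (Real.exp_pos _).trans_le hE
  have hK0 : 0 ≤ K4 := le_trans (by positivity) hK
  have i1 : 0 ≤ (if (N - 2 * N0) / a ≤ -(z.re - t) ∧ -(z.re - t) ≤ (N + 2 * N0) / a then K4 else 0) := by
    split_ifs <;> simp [hK0]
  have i2 : 0 ≤ (if (N - 2 * N0) / a ≤ z.re - t ∧ z.re - t ≤ (N + 2 * N0) / a then K4 else 0) := by
    split_ifs <;> simp [hK0]
  have i3 : 0 ≤ (if |z.re - t| ≤ 2 * N / a then η1 else 0) := by
    split_ifs <;> simp [hη]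
  have i4 : 0 ≤ δ1 * Real.exp (-(z.re - t) ^ 2 / 2) := by positivity
  by_cases h : |z.re - t| ≤ (N + N0) / a + 2 * d
  swap
  · rw [if_neg h]
    linarith
  rw [if_pos h]
  have h2 : a * |z.re - t| ≤ N + N0 + 2 * (a * d) := by
    have := mul_le_mul_of_nonneg_left h ha.le
    calc a * |z.re - t| ≤ a * ((N + N0) / a + 2 * d) := this
      _ = N + N0 + 2 * (a * d) := by field_simp
  have h3 : |z.re - t| ≤ 2 * N / a := by
    rw [le_div_iff₀ ha]; nlinarith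
  rw [if_pos h3]
  have h4 : |z.re - t| ≤ L := h3.trans (hNa.trans hL)
  have hy := hnear h4
  have hE' : Real.exp (a * |z.im|) ≤ E :=
    (Real.exp_le_exp.mpr (mul_le_mul_of_nonneg_left hy ha.le)).trans hE
  rcases le_total (a * |z.re - t|) (N - N0) with h5 | h5
  · -- inner
    have h6 : |z.re - t| ≤ N / a := by
      rw [le_div_iff₀ ha]; nlinarith
    have h7 : |z.re - t| ^ 2 + |z.im| ^ 2 ≤ (N / a) ^ 2 + Y ^ 2 :=
      add_le_add (pow_le_pow_left₀ (abs_nonneg _) h6 2) (pow_le_pow_left₀ (abs_nonneg _) hy 2)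
    have h8 := inner_small hC W ha hE' (by linarith) h5 h7 hρ
    have h9 : (1:ℝ) / 2 ≤ Real.exp (-(z.re - t) ^ 2 / 2) := by
      have h10 := Real.add_one_le_exp (-(z.re - t) ^ 2 / 2)
      have h11 : (z.re - t) ^ 2 ≤ 1 := by
        rw [← sq_abs]
        exact pow_le_one₀ (abs_nonneg _) (h3.trans hNa)
      linarith
    have h10 : δ1 / 2 ≤ δ1 * Real.exp (-(z.re - t) ^ 2 / 2) := by
      have := mul_le_mul_of_nonneg_left h9 hδ1
      linarith
    linarith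
  · -- edge
    have h6 := vt_any (t := t) hC W ha hz hE'
    rcases le_total 0 (z.re - t) with h0 | h0
    · rw [abs_of_nonneg h0] at h2 h5
      have h7 : (N - 2 * N0) / a ≤ z.re - t ∧ z.re - t ≤ (N + 2 * N0) / a := by
        constructor
        · rw [div_le_iff₀ ha]; nlinarith
        · rw [le_div_iff₀ ha]; nlinarith
      rw [if_pos h7]
      linarith
    · rw [abs_of_nonpos h0] at h2 h5
      have h7 : (N - 2 * N0) / a ≤ -(z.re - t) ∧ -(z.re - t) ≤ (N + 2 * N0) / a := by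
        constructor
        · rw [div_le_iff₀ ha]; nlinarith
        · rw [le_div_iff₀ ha]; nlinarith
      rw [if_pos h7]
      linarith

/-- second part of the cost -/
lemma part2 {j : ℕ} {C N N0 a L E Y R δ1 δ2 d t : ℝ} {B : ℝ → ℝ} {z : ℂ} (hC : 1 ≤ C) (W : Wf j C N B)
    (ha : 0 < a) (hz : |z.im| ≤ 1 / 2) (hnear : |z.re - t| ≤ L → |z.im| ≤ Y) (hE : Real.exp (a * Y) ≤ E)
    (hR : Real.exp (Y * L) ≤ R) (had : a * d ≤ 1) (hN0 : 4 ≤ N0) (hL : 1 ≤ L) (hδ1 : 0 ≤ δ1) (hδ2 : 0 ≤ δ2)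
    (hout : 4 * (C * E / (N0 - 1) ^ j) * R ≤ δ1)
    (hfar : 4 * C * Real.exp (a / 2) * Real.exp (L / 2) * Real.exp (-L ^ 2 / 2) ≤ δ2) :
    (if |z.re - t| ≤ (N + N0) / a - 2 * d then 0 else 2 * ‖vt B a t z‖ * Real.exp (|z.im| * L)) ≤
      δ1 * Real.exp (-(z.re - t) ^ 2 / 2) + δ2 := by
  have hE0 : 0 < E := (Real.exp_pos _).trans_le hE
  have hg := Real.exp_pos (-(z.re - t) ^ 2 / 2)
  split_ifs with h
  · positivity
  push Not at h
  have h2 : N + (N0 - 1) - 1 ≤ a * |z.re - t| := by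
    have := mul_le_mul_of_nonneg_left h.le ha.le
    have e : a * ((N + N0) / a - 2 * d) = N + N0 - 2 * (a * d) := by field_simp
    rw [e] at this
    linarith
  rcases le_total |z.re - t| L with h3 | h3
  · have hy := hnear h3
    have hE' : Real.exp (a * |z.im|) ≤ E :=
      (Real.exp_le_exp.mpr (mul_le_mul_of_nonneg_left hy ha.le)).trans hE
    have hR' : Real.exp (|z.im| * L) ≤ R :=
      (Real.exp_le_exp.mpr (mul_le_mul_of_nonneg_right hy (by linarith))).trans hR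
    have h4 := outer_small hC W ha hz hE' (M := N0 - 1) (by linarith) h2
    have hp : 0 < (N0 - 1) ^ j := by
      have : 0 < N0 - 1 := by linarith
      positivity
    have h5 : 2 * ‖vt B a t z‖ * Real.exp (|z.im| * L) ≤
        2 * (2 * (C * E / (N0 - 1) ^ j) * Real.exp (-(z.re - t) ^ 2 / 2)) * R := by
      apply mul_le_mul _ hR' (Real.exp_pos _).le
      · positivity
      · linarith
    have h6 : 2 * (2 * (C * E / (N0 - 1) ^ j) * Real.exp (-(z.re - t) ^ 2 / 2)) * R =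
        (4 * (C * E / (N0 - 1) ^ j) * R) * Real.exp (-(z.re - t) ^ 2 / 2) := by ring
    rw [h6] at h5
    have h7 := mul_le_mul_of_nonneg_right hout hg.le
    linarith
  · have hE' : Real.exp (a * |z.im|) ≤ Real.exp (a / 2) := by
      apply Real.exp_le_exp.mpr
      nlinarith
    have hR' : Real.exp (|z.im| * L) ≤ Real.exp (L / 2) := by
      apply Real.exp_le_exp.mpr
      nlinarith
    have h4 := outer_small hC W ha hz hE' (M := 1) le_rfl (by linarith)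
    rw [one_pow, div_one] at h4
    have h8 : Real.exp (-(z.re - t) ^ 2 / 2) ≤ Real.exp (-L ^ 2 / 2) := by
      apply Real.exp_le_exp.mpr
      have : L ^ 2 ≤ (z.re - t) ^ 2 := by
        rw [← sq_abs (z.re - t)]
        exact pow_le_pow_left₀ (by linarith) h3 2
      linarith
    have h9 : ‖vt B a t z‖ ≤ 2 * (C * Real.exp (a / 2)) * Real.exp (-L ^ 2 / 2) :=
      h4.trans (mul_le_mul_of_nonneg_left h8 (by positivity))
    have h5 : 2 * ‖vt B a t z‖ * Real.exp (|z.im| * L) ≤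
        2 * (2 * (C * Real.exp (a / 2)) * Real.exp (-L ^ 2 / 2)) * Real.exp (L / 2) := by
      apply mul_le_mul _ hR' (Real.exp_pos _).le
      · positivity
      · linarith
    have h6 : 2 * (2 * (C * Real.exp (a / 2)) * Real.exp (-L ^ 2 / 2)) * Real.exp (L / 2) =
        4 * C * Real.exp (a / 2) * Real.exp (L / 2) * Real.exp (-L ^ 2 / 2) := by ring
    have h7 : 0 ≤ δ1 * Real.exp (-(z.re - t) ^ 2 / 2) := by positivity
    linarith

end Pool.Agent.Y871.LD
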